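import Pool.Agent.Results.MP_f8f7ac_co.TransitiveAsym

/-!
`MP_f8f7ac_co`: the configuration with 13 points of the starting file has no realization with a
non-trivial affine symmetry.
-/

set_option autoImplicit false

open Set Pool.Agent.Results.MP_f8f7ac_co.TransitiveAsym

namespace Pool.Agent.Results.MP_f8f7ac_co.AffineRigid

/-- An affine symmetry of a realization: an affine bijection of the plane which maps the set of
realized points onto itself and the set of realized lines onto itself. -/
def IsAffineSymmetry {n : ℕ} {C : Config n} (R : Realization C) (f : Plane ≃ᵃ[ℝ] Plane) : Prop :=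
  f '' Set.range R.pt = Set.range R.pt ∧
  (fun s : Set Plane => f '' s) '' Set.range (fun j => (R.ln j : Set Plane)) =
    Set.range (fun j => (R.ln j : Set Plane))

/-- An affine bijection does not permute three distinct collinear points cyclically. -/
theorem no_cyc_affine {a b c : Plane} (hc : Collinear ℝ {a, b, c}) (hab : a ≠ b)
    (f : Plane ≃ᵃ[ℝ] Plane) (h1 : f a = b) (h2 : f b = c) (h3 : f c = a) : False := by
  have hbc : b ≠ c := by
    intro h
    apply hab
    rw [← h] at h2
    have h4 : f a = f b := by rw [h1, h2]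
    exact f.injective h4
  have hca : c ≠ a := by
    intro h
    rw [h] at h3
    rw [h3] at h1
    exact hab h1
  rcases hc.wbtw_or_wbtw_or_wbtw with h | h | h
  · have h' : Wbtw ℝ (f a) (f b) (f c) := h.map f.toAffineMap
    rw [h1, h2, h3] at h'
    exact hbc ((wbtw_rotate_iff ℝ b).1 ⟨h', h⟩)
  · have h' : Wbtw ℝ (f b) (f c) (f a) := h.map f.toAffineMap
    rw [h1, h2, h3] at h'
    exact hca ((wbtw_rotate_iff ℝ c).1 ⟨h', h⟩)
  · have h' : Wbtw ℝ (f c) (f a) (f b) := h.map f.toAffineMap
    rw [h1, h2, h3] at h'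
    exact hab ((wbtw_rotate_iff ℝ a).1 ⟨h', h⟩)

/-- an affine bijection of the plane fixing three non-collinear points is the identity -/
theorem eq_refl_of_fix {a b c : Plane} (f : Plane ≃ᵃ[ℝ] Plane) (hc : ¬ Collinear ℝ {a, b, c})
    (ha : f a = a) (hb : f b = b) (hc' : f c = c) : f = AffineEquiv.refl ℝ Plane := by
  rw [← affineIndependent_iff_not_collinear_set] at hc
  have h1 := (hc.affineSpan_eq_top_iff_card_eq_finrank_add_one).mpr (by simp)
  have h2 : f.toAffineMap = AffineMap.id ℝ Plane := by
    apply AffineMap.ext_on h1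
    intro x hx
    obtain ⟨i, rfl⟩ := hx
    fin_cases i
    · exact ha
    · exact hb
    · exact hc'
  ext1 x
  exact congrArg (fun g : Plane →ᵃ[ℝ] Plane => g x) h2

/-- an affine bijection preserving a set preserves the extreme points of its convex hull -/
theorem extreme_image {S : Set Plane} (f : Plane ≃ᵃ[ℝ] Plane) (hf : f '' S = S) {x : Plane}
    (hx : x ∈ (convexHull ℝ S).extremePoints ℝ) : f x ∈ (convexHull ℝ S).extremePoints ℝ := by
  have hK : f '' (convexHull ℝ S) = convexHull ℝ S := by
    have h1 := f.toAffineMap.image_convexHull S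
    have h2 : (f.toAffineMap : Plane → Plane) '' S = S := hf
    rw [h2] at h1
    exact h1
  rw [mem_extremePoints_iff_forall_segment] at hx ⊢
  refine ⟨?_, ?_⟩
  · rw [← hK]
    exact ⟨x, hx.1, rfl⟩
  · intro y1 hy1 y2 hy2 hy
    rw [← hK] at hy1 hy2
    obtain ⟨x1, hx1, rfl⟩ := hy1
    obtain ⟨x2, hx2, rfl⟩ := hy2
    have h3 : Wbtw ℝ x1 x x2 := by
      have h4 : Wbtw ℝ (f x1) (f x) (f x2) := mem_segment_iff_wbtw.1 hy
      exact f.wbtw_map_iff.1 h4
    rcases hx.2 x1 hx1 x2 hx2 (mem_segment_iff_wbtw.2 h3) with h | h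
    · left; rw [h]
    · right; rw [h]

theorem no_affine_symmetry (R : Realization C13) (f : Plane ≃ᵃ[ℝ] Plane)
    (h : IsAffineSymmetry R f) : f = AffineEquiv.refl ℝ Plane := by
  obtain ⟨s, hs⟩ := exists_perm R.pt R.pt_inj f f.injective h.1
  obtain ⟨t, ht⟩ := exists_perm (fun j => (R.ln j : Set Plane))
    (fun j j' hj => R.ln_inj (SetLike.coe_injective hj)) (fun u : Set Plane => f '' u)
    (Set.image_injective.mpr f.injective) h.2
  have haut : IsAut C13 s t := by
    intro i j
    rw [← R.inc_iff, ← R.inc_iff, ← hs i]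
    have h2 : ((R.ln (t j) : AffineSubspace ℝ Plane) : Set Plane) = f '' (R.ln j : Set Plane) := (ht j).symm
    rw [← SetLike.mem_coe, h2]
    exact f.injective.mem_set_image
  have hcol : ∀ x y z, tri x y z → Collinear ℝ {R.pt x, R.pt y, R.pt z} := by
    rintro x y z ⟨j, h1, h2, h3⟩
    exact collinear_of_mem (R.ln_line j).2 ((R.inc_iff _ _).mpr h1) ((R.inc_iff _ _).mpr h2)
      ((R.inc_iff _ _).mpr h3)
  rcases aut_good s t haut with ⟨r, hr⟩ | ⟨x, y, z, hxyz, hne, h1, h2, h3⟩
  · by_cases hr0 : r = 0
    · subst hr0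
      have hfix : ∀ i, f (R.pt i) = R.pt i := by
        intro i
        rw [hs i, hr i, add_zero]
      -- the points 0, 2, 11 are not collinear
      apply eq_refl_of_fix (a := R.pt 0) (b := R.pt 2) (c := R.pt 11) f ?_ (hfix _) (hfix _) (hfix _)
      intro hc
      have h02 : R.pt 0 ≠ R.pt 2 := R.pt_inj.ne (by decide)
      have i0 : inc13 0 12 := by decide
      have i2 : inc13 2 12 := by decide
      have i11 : ¬ inc13 11 12 := by decide
      have h0 : R.pt 0 ∈ R.ln 12 := (R.inc_iff _ _).mpr i0
      have h2 : R.pt 2 ∈ R.ln 12 := (R.inc_iff _ _).mpr i2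
      have h11 : R.pt 11 ∉ R.ln 12 := fun hh => i11 ((R.inc_iff _ _).mp hh)
      apply h11
      have h3 : R.pt 11 ∈ line[ℝ, R.pt 0, R.pt 2] :=
        hc.mem_affineSpan_of_mem_of_ne (by simp) (by simp) (by simp) h02
      exact (affineSpan_pair_le_of_mem_of_mem h0 h2) h3
    · exfalso
      set S : Set Plane := Set.range R.pt with hS
      have hcomp : IsCompact (convexHull ℝ S) := (Set.finite_range R.pt).isCompact_convexHull ℝ
      have hne : (convexHull ℝ S).Nonempty := ⟨R.pt 0, subset_convexHull ℝ S ⟨0, rfl⟩⟩
      obtain ⟨e, he⟩ := hcomp.extremePoints_nonempty hne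
      obtain ⟨i0, hi0⟩ := extremePoints_convexHull_subset he
      rw [← hi0] at he
      have hiter : ∀ k : ℕ, R.pt (i0 + k • r) ∈ (convexHull ℝ S).extremePoints ℝ := by
        intro k
        induction k with
        | zero => simpa using he
        | succ k ih =>
          have h5 := extreme_image f h.1 ih
          rw [hs, hr] at h5
          rw [succ_nsmul, ← add_assoc]
          exact h5
      have hgen : ∀ r : Fin 13, r ≠ 0 → ∀ d : Fin 13, ∃ k : Fin 13, k.val • r = d := by decide +kernel
      have hall : ∀ i, R.pt i ∈ (convexHull ℝ S).extremePoints ℝ := by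
        intro i
        obtain ⟨k, hk⟩ := hgen r hr0 (i - i0)
        have := hiter k.val
        rw [hk, add_sub_cancel] at this
        exact this
      have hmid : ∀ i j k : Fin 13, i ≠ j → k ≠ j → ¬ Wbtw ℝ (R.pt i) (R.pt j) (R.pt k) := by
        intro i j k hij hkj hw
        have h6 := (mem_extremePoints_iff_forall_segment.1 (hall j)).2 (R.pt i)
          (subset_convexHull ℝ S ⟨i, rfl⟩) (R.pt k) (subset_convexHull ℝ S ⟨k, rfl⟩)
          (mem_segment_iff_wbtw.2 hw)
        rcases h6 with h6 | h6
        · exact hij (R.pt_inj h6)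
        · exact hkj (R.pt_inj h6)
      rcases (hcol 0 2 8 (by decide)).wbtw_or_wbtw_or_wbtw with hw | hw | hw
      · exact hmid 0 2 8 (by decide) (by decide) hw
      · exact hmid 2 8 0 (by decide) (by decide) hw
      · exact hmid 8 0 2 (by decide) (by decide) hw
  · exfalso
    exact no_cyc_affine (hcol x y z hxyz) (R.pt_inj.ne hne) f (by rw [hs, h1]) (by rw [hs, h2])
      (by rw [hs, h3])

/-- There is a configuration (n_3), namely one with `n = 13`, which is geometrically realizable in
the plane and whose automorphism group is transitive on points, on lines and on flags, but none of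
whose geometric realizations is preserved by an affine bijection of the plane other than the
identity. -/
theorem result :
    ∃ (n : ℕ) (C : Config n), Nonempty (Realization C) ∧
      PointTransitive C ∧ LineTransitive C ∧ FlagTransitive C ∧
      ∀ (R : Realization C) (f : Plane ≃ᵃ[ℝ] Plane), IsAffineSymmetry R f →
        f = AffineEquiv.refl ℝ Plane :=
  ⟨13, C13, ⟨R13⟩, pointTransitive, lineTransitive, flagTransitive, no_affine_symmetry⟩

end Pool.Agent.Results.MP_f8f7ac_co.AffineRigid
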